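import Pool.Agent.Helper46.FN.WT3

set_option autoImplicit false

namespace Pool.Agent.Helper46.FN.PTW

open MeasureTheory Filter Topology
open scoped ContDiff
open Pool.Agent.Helper25.FN
open Pool.Agent.Helper25.FB.Inj (star)

lemma norm_coord_le {n : ℕ} (z : V n) (j : Fin n) : ‖z j‖ ≤ nm z := by
  unfold nm
  apply Real.le_sqrt_of_sq_le
  exact Finset.single_le_sum (f := fun j => ‖z j‖ ^ 2) (fun i _ => sq_nonneg _)
    (Finset.mem_univ j)

lemma nm_continuous {n : ℕ} : Continuous (fun z : V n => nm z) :=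
  (nmsq_smooth (n := n)).continuous.sqrt

lemma eval_bound {n : ℕ} (Q : Pol n) (m : ℕ) (hQ : ∀ α ∈ Q.support, ∑ i, α i ≤ m) :
    ∃ C : ℝ, 0 ≤ C ∧ ∀ z : V n, ‖MvPolynomial.eval z Q‖ ≤ C * (1 + nm z) ^ m := by
  refine ⟨∑ α ∈ Q.support, ‖Q.coeff α‖, Finset.sum_nonneg fun _ _ => norm_nonneg _,
    fun z => ?_⟩
  rw [MvPolynomial.eval_eq', Finset.sum_mul]
  refine (norm_sum_le _ _).trans (Finset.sum_le_sum fun α hα => ?_)
  rw [norm_mul, norm_prod]
  refine mul_le_mul_of_nonneg_left ?_ (norm_nonneg _)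
  have h1 : ∏ i, ‖z i ^ α i‖ ≤ ∏ i, (1 + nm z) ^ α i := by
    refine Finset.prod_le_prod (fun i _ => norm_nonneg _) fun i _ => ?_
    rw [norm_pow]
    exact pow_le_pow_left₀ (norm_nonneg _) ((norm_coord_le z i).trans (by linarith)) _
  refine h1.trans ?_
  rw [Finset.prod_pow_eq_pow_sum]
  exact pow_le_pow_right₀ (by linarith [nm_nonneg z]) (hQ α hα)

lemma supp_star {n : ℕ} (P : Pol n) {α : Fin n →₀ ℕ} (h : (star P).coeff α ≠ 0) :
    ∑ i, α i ≤ P.totalDegree := by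
  have h1 : α ∈ P.support := by
    apply MvPolynomial.support_map_subset (starRingEnd ℂ) P
    rw [MvPolynomial.mem_support_iff]
    exact h
  have h2 := MvPolynomial.le_totalDegree h1
  rwa [Finsupp.sum_fintype _ _ (fun _ => rfl)] at h2

lemma deg_eq {n : ℕ} (α : Fin n →₀ ℕ) : α.degree = ∑ i, α i := by
  rw [Finsupp.degree_eq_sum]

lemma supp_lead {n : ℕ} (P : Pol n) {α : Fin n →₀ ℕ} (h : α ∈ (lead P).support) :
    ∑ i, α i = P.totalDegree := by
  rw [MvPolynomial.mem_support_iff] at h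
  unfold lead at h
  rw [MvPolynomial.coeff_homogeneousComponent] at h
  by_contra hne
  rw [if_neg] at h
  · exact h rfl
  · rw [deg_eq]
    exact hne

lemma supp_diff {n : ℕ} (P : Pol n) (hd : 1 ≤ P.totalDegree) {α : Fin n →₀ ℕ}
    (h : α ∈ (star P - lead P).support) : ∑ i, α i ≤ P.totalDegree - 1 := by
  rw [MvPolynomial.mem_support_iff, MvPolynomial.coeff_sub] at h
  unfold lead at h
  rw [MvPolynomial.coeff_homogeneousComponent, deg_eq] at h
  by_cases h1 : ∑ i, α i = P.totalDegree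
  · rw [if_pos h1, sub_self] at h
    exact absurd rfl h
  · rw [if_neg h1, sub_zero] at h
    have h2 := supp_star P h
    omega

lemma pv_smul {n : ℕ} (P : Pol n) (t : ℝ) (z : V n) :
    pv P (t • z) = (t : ℂ) ^ P.totalDegree * pv P z := by
  unfold pv
  rw [MvPolynomial.eval_eq', MvPolynomial.eval_eq', Finset.mul_sum]
  refine Finset.sum_congr rfl fun α hα => ?_
  have h1 : ∏ i, (t • z) i ^ α i = (t : ℂ) ^ P.totalDegree * ∏ i, z i ^ α i := by
    rw [← supp_lead P hα, ← Finset.prod_pow_eq_pow_sum, ← Finset.prod_mul_distrib]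
    refine Finset.prod_congr rfl fun i _ => ?_
    rw [Pi.smul_apply, Complex.real_smul, mul_pow]
  rw [h1]
  ring

lemma fderiv_hom {n : ℕ} (Φ : V n → ℝ) (hs : ContDiff ℝ ∞ Φ)
    (hom : ∀ (z : V n) (t : ℝ), 1 ≤ nm z → 1 ≤ t → Φ (t • z) = t * Φ z)
    (z : V n) (t : ℝ) (hz : 1 ≤ nm z) (ht : 1 ≤ t) :
    fderiv ℝ (fun y => (Φ y : ℂ)) (t • z) = fderiv ℝ (fun y => (Φ y : ℂ)) z := by
  set F : V n → ℂ := fun y => (Φ y : ℂ) with hF
  have hFs : ContDiff ℝ ∞ F := Complex.ofRealCLM.contDiff.comp hs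
  have hFc : Continuous (fderiv ℝ F) := hFs.continuous_fderiv (by simp)
  have h1 : ∀ w : V n, 1 < nm w → fderiv ℝ F (t • w) = fderiv ℝ F w := by
    intro w hw
    have hev : (fun y => F (t • y)) =ᶠ[𝓝 w] fun y => t • F y := by
      have : ∀ᶠ y in 𝓝 w, 1 < nm y :=
        nm_continuous.continuousAt.eventually (lt_mem_nhds hw)
      filter_upwards [this] with y hy
      simp only [hF]
      rw [hom y t hy.le ht, Complex.real_smul]
      push_cast
      ring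
    have h2 := hev.fderiv_eq (𝕜 := ℝ)
    have h3 : fderiv ℝ (fun y => F (t • y)) w = t • fderiv ℝ F (t • w) :=
      fderiv_comp_smul (𝕜 := ℝ) (f := F) (x := w) t
    have h4 : fderiv ℝ (fun y => t • F y) w = t • fderiv ℝ F w :=
      fderiv_fun_const_smul (hFs.differentiable (by simp) w) t
    rw [h3, h4] at h2
    have h5 : t ≠ 0 := by linarith
    exact smul_right_injective _ h5 h2
  -- limit
  have hc1 : Continuous (fun r : ℝ => fderiv ℝ F (t • (r • z))) :=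
    hFc.comp (show Continuous fun r : ℝ => t • (r • z) by fun_prop)
  have hc2 : Continuous (fun r : ℝ => fderiv ℝ F (r • z)) :=
    hFc.comp (show Continuous fun r : ℝ => r • z by fun_prop)
  have l1 : Tendsto (fun r : ℝ => fderiv ℝ F (t • (r • z))) (𝓝[>] 1)
      (𝓝 (fderiv ℝ F (t • ((1 : ℝ) • z)))) := (hc1.tendsto 1).mono_left nhdsWithin_le_nhds
  have l2 : Tendsto (fun r : ℝ => fderiv ℝ F (r • z)) (𝓝[>] 1)
      (𝓝 (fderiv ℝ F ((1 : ℝ) • z))) := (hc2.tendsto 1).mono_left nhdsWithin_le_nhds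
  have heq : (fun r : ℝ => fderiv ℝ F (t • (r • z))) =ᶠ[𝓝[>] 1] fun r => fderiv ℝ F (r • z) := by
    filter_upwards [self_mem_nhdsWithin] with r hr
    have hr' : (1 : ℝ) < r := hr
    apply h1
    rw [nm_smul, abs_of_pos (by linarith)]
    nlinarith
  have := tendsto_nhds_unique (l1.congr' heq) l2
  rwa [one_smul] at this

lemma gr_hom {n : ℕ} (Φ : V n → ℝ) (hs : ContDiff ℝ ∞ Φ)
    (hom : ∀ (z : V n) (t : ℝ), 1 ≤ nm z → 1 ≤ t → Φ (t • z) = t * Φ z)
    (z : V n) (t : ℝ) (hz : 1 ≤ nm z) (ht : 1 ≤ t) : gr Φ (t • z) = gr Φ z := by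
  funext j
  unfold gr wd
  rw [fderiv_hom Φ hs hom z t hz ht]


lemma amgm (x a w ε : ℝ) (hx : 0 ≤ x) (ha : 0 ≤ a) (hw : 0 ≤ w) (hε : 0 < ε)
    (h : x ^ 2 = a * w) : x ≤ ε * a + w / (4 * ε) := by
  have h1 : 0 ≤ ε * a + w / (4 * ε) := by positivity
  apply le_of_sq_le_sq _ h1
  rw [h]
  have h2 : (ε * a + w / (4 * ε)) ^ 2 - a * w = (ε * a - w / (4 * ε)) ^ 2 := by
    field_simp
    ring
  nlinarith [sq_nonneg (ε * a - w / (4 * ε))]

/-- both estimates of the symbol part -/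
lemma symbol {n : ℕ} (P : Pol n) (A η : ℝ) (Φ : V n → ℝ) (hd : 1 ≤ P.totalDegree)
    (hW : Wt P A η Φ) (Cs : ℝ) (hCs : ∀ z, ‖MvPolynomial.eval (gr Φ z) P‖ ≤ Cs) :
    ∃ c C3 C4 C5 : ℝ, 0 < c ∧ 0 ≤ C3 ∧ 0 ≤ C4 ∧ 0 ≤ C5 ∧ ∀ z : V n,
      c * (‖pv P z‖ ^ 2 * (1 + nm z) ^ (-(P.totalDegree : ℤ))) -
        C5 * (1 + nm z) ^ ((P.totalDegree : ℤ) - 2) ≤
          (pv P z * MvPolynomial.eval (gr Φ z) P).re ∧
      ‖MvPolynomial.eval (gr Φ z) P‖ ≤
        C3 * ((1 + nm z) ^ (-(P.totalDegree : ℤ)) * ‖pv P z‖) + C4 * (1 + nm z)⁻¹ := by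
  set d := P.totalDegree with hddef
  obtain ⟨c0, hc0, hpos⟩ := hW.pos
  obtain ⟨C0, hbdd⟩ := hW.bdd
  obtain ⟨Cp, hCp, hp⟩ := eval_bound (lead P) d (fun α hα => (supp_lead P hα).le)
  have hCs0 : 0 ≤ Cs := (norm_nonneg _).trans (hCs 0)
  refine ⟨c0, |C0| * 2 ^ d, 2 * Cs,
    2 * (Cp * 2 ^ d * Cs + c0 * (Cp * 2 ^ d) ^ 2), hc0, by positivity, by positivity,
    by positivity, fun z => ?_⟩
  have hs1 : 1 ≤ 1 + nm z := by linarith [nm_nonneg z]
  have hs0 : 0 < 1 + nm z := by linarith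
  have hw0 : 0 < (1 + nm z) ^ ((d : ℤ) - 2) := zpow_pos hs0 _
  have hu0 : 0 < (1 + nm z) ^ (-(d : ℤ)) := zpow_pos hs0 _
  have hu : (1 + nm z) ^ (-(d : ℤ)) = ((1 + nm z) ^ d)⁻¹ := by
    rw [zpow_neg, zpow_natCast]
  by_cases hz : 1 ≤ nm z
  · -- large
    have hz0 : 0 < nm z := by linarith
    set y : V n := (nm z)⁻¹ • z with hy
    have hy1 : nm y = 1 := nm_norm_inv hz0
    have hzy : z = nm z • y := by
      rw [hy, smul_smul, mul_inv_cancel₀ hz0.ne', one_smul]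
    have hg : gr Φ z = gr Φ y := by
      conv_lhs => rw [hzy]
      exact gr_hom Φ hW.smooth hW.hom y (nm z) hy1.ge hz
    have hpz : pv P z = (nm z : ℂ) ^ d * pv P y := by
      conv_lhs => rw [hzy]
      exact pv_smul P (nm z) y
    have hnp : ‖pv P z‖ = nm z ^ d * ‖pv P y‖ := by
      rw [hpz, norm_mul, norm_pow, Complex.norm_real, Real.norm_eq_abs, abs_of_pos hz0]
    have hnd : 0 < nm z ^ d := pow_pos hz0 d
    have hle : nm z ^ d ≤ (1 + nm z) ^ d := pow_le_pow_left₀ hz0.le (by linarith) d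
    have hle2 : (1 + nm z) ^ d ≤ 2 ^ d * nm z ^ d := by
      rw [← mul_pow]
      exact pow_le_pow_left₀ hs0.le (by linarith) d
    have hsd : 0 < (1 + nm z) ^ d := pow_pos hs0 d
    constructor
    · have h1 := hpos y hy1
      have h2 : (pv P z * MvPolynomial.eval (gr Φ z) P).re =
          nm z ^ d * (pv P y * MvPolynomial.eval (gr Φ y) P).re := by
        rw [hpz, hg, mul_assoc, ← Complex.ofReal_pow, Complex.re_ofReal_mul]
      rw [h2, hnp, hu]
      have h3 : c0 * ((nm z ^ d * ‖pv P y‖) ^ 2 * ((1 + nm z) ^ d)⁻¹) ≤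
          nm z ^ d * (c0 * ‖pv P y‖ ^ 2) := by
        have h4 : nm z ^ d * ((1 + nm z) ^ d)⁻¹ ≤ 1 := by
          rw [← div_eq_mul_inv, div_le_one hsd]
          exact hle
        calc c0 * ((nm z ^ d * ‖pv P y‖) ^ 2 * ((1 + nm z) ^ d)⁻¹)
            = (nm z ^ d * (c0 * ‖pv P y‖ ^ 2)) * (nm z ^ d * ((1 + nm z) ^ d)⁻¹) := by ring
          _ ≤ (nm z ^ d * (c0 * ‖pv P y‖ ^ 2)) * 1 :=
              mul_le_mul_of_nonneg_left h4 (by positivity)
          _ = _ := mul_one _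
      have h5 := mul_le_mul_of_nonneg_left h1 hnd.le
      have h6 : 0 ≤ 2 * (Cp * 2 ^ d * Cs + c0 * (Cp * 2 ^ d) ^ 2) *
          (1 + nm z) ^ ((d : ℤ) - 2) := by positivity
      linarith
    · rw [hg, hnp, hu]
      have h1 := hbdd y hy1
      have h2 : ‖MvPolynomial.eval (gr Φ y) P‖ ≤ |C0| * ‖pv P y‖ :=
        h1.trans (mul_le_mul_of_nonneg_right (le_abs_self _) (norm_nonneg _))
      have h3 : |C0| * ‖pv P y‖ ≤
          |C0| * 2 ^ d * (((1 + nm z) ^ d)⁻¹ * (nm z ^ d * ‖pv P y‖)) := by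
        have h4 : 1 ≤ 2 ^ d * (((1 + nm z) ^ d)⁻¹ * nm z ^ d) := by
          rw [mul_left_comm, ← div_eq_inv_mul, le_div_iff₀ hsd, one_mul]
          exact hle2
        calc |C0| * ‖pv P y‖ = (|C0| * ‖pv P y‖) * 1 := (mul_one _).symm
          _ ≤ (|C0| * ‖pv P y‖) * (2 ^ d * (((1 + nm z) ^ d)⁻¹ * nm z ^ d)) :=
              mul_le_mul_of_nonneg_left h4 (by positivity)
          _ = _ := by ring
      have h5 : 0 ≤ 2 * Cs * (1 + nm z)⁻¹ := by positivity
      linarith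
  · -- small
    push Not at hz
    have hs2 : 1 + nm z ≤ 2 := by linarith
    have hinv : (1 : ℝ) / 2 ≤ (1 + nm z)⁻¹ := by
      rw [one_div]
      exact inv_anti₀ hs0 hs2
    have hw : (1 : ℝ) / 2 ≤ (1 + nm z) ^ ((d : ℤ) - 2) := by
      have h1 : (1 + nm z) ^ (-1 : ℤ) ≤ (1 + nm z) ^ ((d : ℤ) - 2) :=
        zpow_le_zpow_right₀ hs1 (by omega)
      rw [zpow_neg_one] at h1
      linarith
    have hu1 : (1 + nm z) ^ (-(d : ℤ)) ≤ 1 := by
      rw [hu]
      exact inv_le_one_of_one_le₀ (one_le_pow₀ hs1)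
    have hpb : ‖pv P z‖ ≤ Cp * 2 ^ d := by
      refine (hp z).trans (mul_le_mul_of_nonneg_left ?_ hCp)
      exact pow_le_pow_left₀ hs0.le hs2 d
    constructor
    · have h1 : -(Cp * 2 ^ d * Cs) ≤ (pv P z * MvPolynomial.eval (gr Φ z) P).re := by
        have h2 : |(pv P z * MvPolynomial.eval (gr Φ z) P).re| ≤ Cp * 2 ^ d * Cs := by
          refine (Complex.abs_re_le_norm _).trans ?_
          rw [norm_mul]
          exact mul_le_mul hpb (hCs z) (norm_nonneg _) (by positivity)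
        exact (abs_le.1 h2).1
      have h3 : ‖pv P z‖ ^ 2 * (1 + nm z) ^ (-(d : ℤ)) ≤ (Cp * 2 ^ d) ^ 2 := by
        calc ‖pv P z‖ ^ 2 * (1 + nm z) ^ (-(d : ℤ)) ≤ ‖pv P z‖ ^ 2 * 1 :=
              mul_le_mul_of_nonneg_left hu1 (sq_nonneg _)
          _ = ‖pv P z‖ ^ 2 := mul_one _
          _ ≤ (Cp * 2 ^ d) ^ 2 := pow_le_pow_left₀ (norm_nonneg _) hpb 2
      have h4 := mul_le_mul_of_nonneg_left h3 hc0.le
      have h5 : (0 : ℝ) ≤ Cp * 2 ^ d * Cs + c0 * (Cp * 2 ^ d) ^ 2 := by positivity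
      have h6 := mul_le_mul_of_nonneg_left hw h5
      linarith
    · have h1 := hCs z
      have h2 : Cs ≤ 2 * Cs * (1 + nm z)⁻¹ := by nlinarith
      have h3 : 0 ≤ |C0| * 2 ^ d * ((1 + nm z) ^ (-(d : ℤ)) * ‖pv P z‖) := by positivity
      linarith

theorem main (hE : S_EXPA) (hS : S_SYM2) : S_PTW := by
  intro n P A η Φ hd hA hW
  obtain ⟨b, hb, hPD, hδ⟩ := hE n P Φ hW.smooth (hS n Φ hW.smooth hW.hom)
  obtain ⟨Cb, hCb⟩ := hb.2 0
  obtain ⟨C2, hC2⟩ := hδ.2 0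
  simp only [norm_iteratedFDeriv_zero, Nat.cast_zero, sub_zero, zpow_zero, mul_one,
    zpow_neg_one] at hCb hC2
  have hC2' : ∀ z, ‖b z - MvPolynomial.eval (gr Φ z) P‖ ≤ |C2| * (1 + nm z)⁻¹ := by
    intro z
    have hs0 : 0 < 1 + nm z := by linarith [nm_nonneg z]
    exact (hC2 z).trans (mul_le_mul_of_nonneg_right (le_abs_self _) (by positivity))
  have hCs : ∀ z, ‖MvPolynomial.eval (gr Φ z) P‖ ≤ Cb + |C2| := by
    intro z
    have hs1 : 1 ≤ 1 + nm z := by linarith [nm_nonneg z]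
    have h1 : (1 + nm z)⁻¹ ≤ 1 := inv_le_one_of_one_le₀ hs1
    have h2 : MvPolynomial.eval (gr Φ z) P = b z - (b z - MvPolynomial.eval (gr Φ z) P) := by
      ring
    calc ‖MvPolynomial.eval (gr Φ z) P‖ = ‖b z - (b z - MvPolynomial.eval (gr Φ z) P)‖ := by
          rw [← h2]
      _ ≤ ‖b z‖ + ‖b z - MvPolynomial.eval (gr Φ z) P‖ := norm_sub_le _ _
      _ ≤ Cb + |C2| * 1 := add_le_add (hCb z)
          ((hC2' z).trans (mul_le_mul_of_nonneg_left h1 (abs_nonneg _)))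
      _ = Cb + |C2| := by ring
  obtain ⟨c, C3, C4, C5, hc, h3, h4, h5, hsym⟩ := symbol P A η Φ hd hW _ hCs
  obtain ⟨Ce, hCe, he⟩ := eval_bound (star P - lead P) (P.totalDegree - 1)
    (fun α hα => supp_diff P hd hα)
  set d := P.totalDegree with hddef
  set K : ℝ := |C2| + Ce * C3 + 1 with hK
  have hK0 : 0 < K := by positivity
  set K' : ℝ := Ce * C4 + Ce * |C2| with hK'
  have hK'0 : 0 ≤ K' := by positivity
  set ε : ℝ := c / (2 * K) with hε
  have hε0 : 0 < ε := by positivity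
  refine ⟨c / 2, C5 + K / (4 * ε) + K' + C3 + (C4 + K) + 1, by positivity, by positivity,
    fun z => ?_⟩
  have hs1 : 1 ≤ 1 + nm z := by linarith [nm_nonneg z]
  have hs0 : 0 < 1 + nm z := by linarith
  obtain ⟨hs_re, hs_norm⟩ := hsym z
  set p := pv P z with hp
  set σ := MvPolynomial.eval (gr Φ z) P with hσ
  set δ := b z - σ with hδdef
  set e := MvPolynomial.eval z (star P - lead P) with hedef
  set w : ℝ := (1 + nm z) ^ ((d : ℤ) - 2) with hw
  set u : ℝ := (1 + nm z) ^ (-(d : ℤ)) with hu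
  set v : ℝ := (1 + nm z)⁻¹ with hv
  have hw0 : 0 < w := zpow_pos hs0 _
  have hu0 : 0 < u := zpow_pos hs0 _
  have hv0 : 0 < v := inv_pos.2 hs0
  have hpst : MvPolynomial.eval z (star P) = p + e := by
    rw [hedef, map_sub, hp]
    unfold pv
    ring
  have hbz : b z = σ + δ := by rw [hδdef]; ring
  have hes : ‖e‖ ≤ Ce * (1 + nm z) ^ (d - 1) := he z
  have hδs : ‖δ‖ ≤ |C2| * v := hC2' z
  -- relations between the powers
  have r1 : (1 + nm z) ^ (d - 1) * v = w := by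
    rw [hv, hw, ← zpow_natCast, ← zpow_neg_one, ← zpow_add₀ hs0.ne']
    congr 1
    omega
  have r2 : (1 + nm z) ^ (d - 1) * u = v := by
    rw [hv, hu, ← zpow_natCast, ← zpow_neg_one, ← zpow_add₀ hs0.ne']
    congr 1
    omega
  have r3 : v ^ 2 = u * w := by
    rw [hv, hu, hw, ← zpow_neg_one, ← zpow_natCast, ← zpow_mul, ← zpow_add₀ hs0.ne']
    congr 1
    push_cast
    ring
  set a : ℝ := ‖p‖ ^ 2 * u with ha
  have ha0 : 0 ≤ a := by positivity
  set x : ℝ := ‖p‖ * v with hx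
  have hx0 : 0 ≤ x := by positivity
  have hx2 : x ^ 2 = a * w := by
    rw [hx, ha, mul_pow, r3]
    ring
  have hx1 : x ≤ ε * a + w / (4 * ε) := amgm x a w ε hx0 ha0 hw0.le hε0 hx2
  have hx1' : x ≤ 1 * a + w / (4 * 1) := amgm x a w 1 hx0 ha0 hw0.le one_pos hx2
  -- the error terms
  have t1 : ‖p * δ‖ ≤ |C2| * x := by
    rw [norm_mul]
    calc ‖p‖ * ‖δ‖ ≤ ‖p‖ * (|C2| * v) := mul_le_mul_of_nonneg_left hδs (norm_nonneg _)
      _ = _ := by rw [hx]; ring
  have t2 : ‖e * σ‖ ≤ Ce * C3 * x + Ce * C4 * w := by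
    rw [norm_mul]
    calc ‖e‖ * ‖σ‖ ≤ (Ce * (1 + nm z) ^ (d - 1)) * (C3 * (u * ‖p‖) + C4 * v) :=
          mul_le_mul hes hs_norm (norm_nonneg _) (by positivity)
      _ = Ce * C3 * (((1 + nm z) ^ (d - 1) * u) * ‖p‖) +
          Ce * C4 * ((1 + nm z) ^ (d - 1) * v) := by ring
      _ = _ := by rw [r1, r2, hx]; ring
  have t3 : ‖e * δ‖ ≤ Ce * |C2| * w := by
    rw [norm_mul]
    calc ‖e‖ * ‖δ‖ ≤ (Ce * (1 + nm z) ^ (d - 1)) * (|C2| * v) :=
          mul_le_mul hes hδs (norm_nonneg _) (by positivity)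
      _ = Ce * |C2| * ((1 + nm z) ^ (d - 1) * v) := by ring
      _ = _ := by rw [r1]
  have t4 : ‖p * σ‖ ≤ C3 * a + C4 * x := by
    rw [norm_mul]
    calc ‖p‖ * ‖σ‖ ≤ ‖p‖ * (C3 * (u * ‖p‖) + C4 * v) :=
          mul_le_mul_of_nonneg_left hs_norm (norm_nonneg _)
      _ = _ := by rw [ha, hx]; ring
  have hprod : (p + e) * b z = p * σ + (p * δ + e * σ + e * δ) := by rw [hbz]; ring
  have terr : ‖p * δ + e * σ + e * δ‖ ≤ K * x + K' * w := by
    calc ‖p * δ + e * σ + e * δ‖ ≤ ‖p * δ‖ + ‖e * σ‖ + ‖e * δ‖ :=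
          (norm_add_le _ _).trans (add_le_add (norm_add_le _ _) le_rfl)
      _ ≤ |C2| * x + (Ce * C3 * x + Ce * C4 * w) + Ce * |C2| * w :=
          add_le_add (add_le_add t1 t2) t3
      _ ≤ K * x + K' * w := by
          rw [hK, hK']
          nlinarith
  have hwt : 0 < wt Φ z := Real.exp_pos _
  have hval : MvPolynomial.eval z (star P) * PDm P (wc Φ) z =
      ((p + e) * b z) * (wt Φ z : ℂ) := by
    rw [hPD z, hpst]
    unfold wc
    ring
  constructor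
  · rw [hval, Complex.re_mul_ofReal, hprod, Complex.add_re]
    refine mul_le_mul_of_nonneg_right ?_ hwt.le
    have h1 : -(K * x + K' * w) ≤ (p * δ + e * σ + e * δ).re :=
      (abs_le.1 ((Complex.abs_re_le_norm _).trans terr)).1
    have h2 : K * x ≤ c / 2 * a + K / (4 * ε) * w := by
      have h3 := mul_le_mul_of_nonneg_left hx1 hK0.le
      have h4 : K * (ε * a + w / (4 * ε)) = c / 2 * a + K / (4 * ε) * w := by
        rw [mul_add]
        congr 1
        · rw [hε]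
          field_simp
        · ring
      linarith
    have h6 : 0 ≤ (C3 + (C4 + K) + 1) * w := by positivity
    have h7 : (C5 + K / (4 * ε) + K' + C3 + (C4 + K) + 1) * w =
      C5 * w + K / (4 * ε) * w + K' * w + (C3 + (C4 + K) + 1) * w := by ring
    rw [h7]
    linarith
  · rw [hval, norm_mul, Complex.norm_real, Real.norm_eq_abs, abs_of_pos hwt]
    unfold den
    rw [← mul_assoc]
    refine mul_le_mul_of_nonneg_right ?_ hwt.le
    rw [hprod]
    have h1 : ‖p * σ + (p * δ + e * σ + e * δ)‖ ≤ (C3 * a + C4 * x) + (K * x + K' * w) :=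
      (norm_add_le _ _).trans (add_le_add t4 terr)
    refine h1.trans ?_
    have h2 : (C4 + K) * x ≤ (C4 + K) * (a + w) := by
      refine mul_le_mul_of_nonneg_left ?_ (by positivity)
      linarith
    have h8 : 0 ≤ C5 + K / (4 * ε) + K' + 1 := by positivity
    have h9 : 0 ≤ C5 + K / (4 * ε) + C3 + 1 := by positivity
    have h10 := mul_nonneg h8 ha0
    have h11 := mul_nonneg h9 hw0.le
    show _ ≤ (C5 + K / (4 * ε) + K' + C3 + (C4 + K) + 1) * (a + w)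
    nlinarith

end Pool.Agent.Helper46.FN.PTW
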