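import Pool.Agent.Helper25.FN.Spec

set_option autoImplicit false

namespace Pool.Agent.Helper46.FN

open MeasureTheory Filter Topology
open scoped ContDiff
open Pool.Agent.Helper25.FN

lemma nm_sq {n : ℕ} (z : V n) : nm z ^ 2 = ∑ j, ‖z j‖ ^ 2 := by
  unfold nm
  exact Real.sq_sqrt (Finset.sum_nonneg fun j _ => sq_nonneg _)

lemma nm_nonneg {n : ℕ} (z : V n) : 0 ≤ nm z := Real.sqrt_nonneg _

lemma nm_smul {n : ℕ} (t : ℝ) (z : V n) : nm (t • z) = |t| * nm z := by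
  unfold nm
  have h : ∑ j, ‖(t • z) j‖ ^ 2 = t ^ 2 * ∑ j, ‖z j‖ ^ 2 := by
    rw [Finset.mul_sum]
    refine Finset.sum_congr rfl fun j _ => ?_
    rw [Pi.smul_apply, norm_smul, mul_pow, Real.norm_eq_abs, sq_abs]
  rw [h, Real.sqrt_mul (sq_nonneg t), Real.sqrt_sq_eq_abs]

lemma nm_norm_inv {n : ℕ} {z : V n} (hz : 0 < nm z) : nm ((nm z)⁻¹ • z) = 1 := by
  rw [nm_smul, abs_of_pos (inv_pos.2 hz), inv_mul_cancel₀ hz.ne']

lemma nm_zero {n : ℕ} : nm (0 : V n) = 0 := by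
  unfold nm
  simp

lemma nmsq_smooth {n : ℕ} : ContDiff ℝ ∞ (fun z : V n => ∑ j, ‖z j‖ ^ 2) := by
  apply ContDiff.sum
  intro j _
  have h : ContDiff ℝ ∞ (fun z : V n => z j) := contDiff_apply ℝ ℂ j
  exact h.norm_sq ℝ

namespace WT3

theorem main : S_WT3 := by
  intro n P A η Φ hΦ hhom hlow hpos hbdd hang
  set χ : V n → ℝ := fun z => Real.smoothTransition ((16 * ∑ j, ‖z j‖ ^ 2 - 1) / 3) with hχ
  have hχs : ContDiff ℝ ∞ χ := by
    have h1 : ContDiff ℝ ∞ (fun z : V n => (16 * ∑ j, ‖z j‖ ^ 2 - 1) / 3) :=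
      ((contDiff_const.mul nmsq_smooth).sub contDiff_const).div_const 3
    exact Real.smoothTransition.contDiff.comp h1
  have hχ1 : ∀ z : V n, 1 / 4 ≤ ∑ j, ‖z j‖ ^ 2 → χ z = 1 := by
    intro z hz
    simp only [hχ]
    apply Real.smoothTransition.one_of_one_le
    rw [le_div_iff₀ (by norm_num)]
    linarith
  have hχ0 : ∀ z : V n, ∑ j, ‖z j‖ ^ 2 ≤ 1 / 16 → χ z = 0 := by
    intro z hz
    simp only [hχ]
    apply Real.smoothTransition.zero_of_nonpos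
    apply div_nonpos_of_nonpos_of_nonneg _ (by norm_num)
    linarith
  set Ψ : V n → ℝ := fun z => χ z * Φ z with hΨ
  have hΨΦ : ∀ z : V n, 1 / 2 ≤ nm z → Ψ z = Φ z := by
    intro z hz
    simp only [hΨ]
    rw [hχ1 z, one_mul]
    rw [← nm_sq]
    nlinarith
  have hcont : Continuous (fun z : V n => ∑ j, ‖z j‖ ^ 2) := nmsq_smooth.continuous
  have hev : ∀ z : V n, nm z = 1 → Ψ =ᶠ[𝓝 z] Φ := by
    intro z hz
    have h1 : ∀ᶠ y in 𝓝 z, 1 / 4 < ∑ j, ‖y j‖ ^ 2 := by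
      apply hcont.continuousAt.eventually (lt_mem_nhds _)
      show (1 : ℝ) / 4 < ∑ j, ‖z j‖ ^ 2
      rw [← nm_sq, hz]
      norm_num
    filter_upwards [h1] with y hy
    simp only [hΨ]
    rw [hχ1 y hy.le, one_mul]
  have hgr : ∀ z : V n, nm z = 1 → gr Ψ z = gr Φ z := by
    intro z hz
    funext j
    unfold gr wd
    have h1 : (fun y => (Ψ y : ℂ)) =ᶠ[𝓝 z] fun y => (Φ y : ℂ) := by
      filter_upwards [hev z hz] with y hy
      rw [hy]
    rw [h1.fderiv_eq]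
  refine ⟨Ψ, ?_, ?_, ?_, ?_, ?_, ?_⟩
  · rw [contDiff_iff_contDiffAt]
    intro z
    by_cases hz : z = 0
    · have h1 : Ψ =ᶠ[𝓝 z] fun _ => 0 := by
        have h2 : ∀ᶠ y in 𝓝 z, ∑ j, ‖y j‖ ^ 2 < 1 / 16 := by
          apply hcont.continuousAt.eventually (gt_mem_nhds _)
          rw [hz]
          simp
        filter_upwards [h2] with y hy
        simp only [hΨ]
        rw [hχ0 y hy.le, zero_mul]
      exact contDiffAt_const.congr_of_eventuallyEq h1
    · have h1 : ContDiffAt ℝ ∞ Φ z := hΦ.contDiffAt (isOpen_ne.mem_nhds hz)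
      exact hχs.contDiffAt.mul h1
  · intro z t hz ht
    rw [hΨΦ z (by linarith), hΨΦ (t • z) ?_]
    · exact hhom z t (by linarith)
    · rw [nm_smul, abs_of_nonneg (by linarith)]
      nlinarith
  · intro z hz
    rw [hΨΦ z (by linarith)]
    have hz0 : 0 < nm z := by linarith
    have h1 := hlow ((nm z)⁻¹ • z) (nm_norm_inv hz0)
    have h2 := hhom ((nm z)⁻¹ • z) (nm z) hz0
    rw [smul_smul, mul_inv_cancel₀ hz0.ne', one_smul] at h2
    rw [h2, mul_comm]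
    exact mul_le_mul_of_nonneg_left h1 hz0.le
  · obtain ⟨c, hc, h⟩ := hpos
    refine ⟨c, hc, fun z hz => ?_⟩
    rw [hgr z hz]
    exact h z hz
  · obtain ⟨C, h⟩ := hbdd
    refine ⟨C, fun z hz => ?_⟩
    rw [hgr z hz]
    exact h z hz
  · intro z hz
    rw [hgr z hz, hΨΦ z (by linarith)]
    exact hang z hz

end WT3

end Pool.Agent.Helper46.FN
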